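import Pool.Agent.H.MP_28fd2b_an.B

namespace Pool.Agent.Results.MP_28fd2b_an.No

open Pool.Agent.H.MP_28fd2b_an

theorem result (k : ℕ) (hk : 1 ≤ k) :
    (∃ S : Set ℕ, (∀ n ∈ S, 1 ≤ n) ∧ WIS k S ∧ HasBanach S (1 / k)) ↔ k = 1 := by
  constructor
  · rintro ⟨S, -, h1, h2⟩
    by_contra h
    exact main (by omega) h1 h2
  · rintro rfl
    exact ⟨{n | 1 ≤ n}, fun _ h => h, one.1, by rw [Nat.cast_one, div_one]; exact one.2⟩

end Pool.Agent.Results.MP_28fd2b_an.No
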